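import Mathlib
import Pool.Agent.V1125.King.Main

/-!
# MP_abcfaf_gt, Q1: locally compact Hausdorff king spaces are compact
-/

set_option autoImplicit false

namespace Pool.Agent.Results.MP_abcfaf_gt.KingCompact

open Set Topology V1125.King

universe u

/-- A weak selection on `X`, written as a symmetric function of two points: `φ a b` is the point
selected from the pair `{a, b}`. -/
def IsWeakSelection {X : Type u} (φ : X → X → X) : Prop :=
  (∀ a b, φ a b = φ b a) ∧ ∀ a b, φ a b = a ∨ φ a b = b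

/-- Continuity of a weak selection. -/
def IsContinuousSelection {X : Type u} [TopologicalSpace X] (φ : X → X → X) : Prop :=
  ∀ a b, a ≠ b → ∀ W : Set X, IsOpen W → φ a b ∈ W →
    ∃ U V : Set X, IsOpen U ∧ IsOpen V ∧ a ∈ U ∧ b ∈ V ∧
      ∀ a' ∈ U, ∀ b' ∈ V, a' ≠ b' → φ a' b' ∈ W

/-- `a → b`: either `a = b`, or `a ≠ b` and `b` is selected. -/
def Arrow {X : Type u} (φ : X → X → X) (a b : X) : Prop := a = b ∨ (a ≠ b ∧ φ a b = b)

/-- `z` is a `φ`-king. -/
def IsKing {X : Type u} (φ : X → X → X) (z : X) : Prop :=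
  ∀ x, ∃ y, Arrow φ z y ∧ Arrow φ y x

/-- King spaces. -/
def IsKingSpace (X : Type u) [TopologicalSpace X] : Prop :=
  ∀ φ : X → X → X, IsWeakSelection φ → IsContinuousSelection φ → ∃ z, IsKing φ z

/-- The open tournament of a continuous weak selection. -/
def toSel {X : Type u} [TopologicalSpace X] [T2Space X] (φ : X → X → X)
    (h1 : IsWeakSelection φ) (h2 : IsContinuousSelection φ) : Sel X where
  R a b := a ≠ b ∧ φ a b = b
  asymm a b h h' := by
    have h3 := h1.1 a b
    rw [h.2, h'.2] at h3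
    exact h.1 h3.symm
  total a b hab := by
    rcases h1.2 a b with h | h
    · exact Or.inr ⟨hab.symm, by rw [h1.1]; exact h⟩
    · exact Or.inl ⟨hab, h⟩
  isOpen := by
    rw [isOpen_prod_iff]
    rintro a b ⟨hab, h⟩
    simp only at hab h
    obtain ⟨U0, V0, hU0, hV0, haU, hbV, hdisj⟩ := t2_separation hab
    obtain ⟨U, V, hU, hV, haU', hbV', hUV⟩ := h2 a b hab V0 hV0 (by rw [h]; exact hbV)
    refine ⟨U0 ∩ U, V0 ∩ V, hU0.inter hU, hV0.inter hV, ⟨haU, haU'⟩, ⟨hbV, hbV'⟩, ?_⟩
    rintro ⟨a', b'⟩ ⟨⟨ha1, ha2⟩, ⟨hb1, hb2⟩⟩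
    have hne : a' ≠ b' := by
      rintro rfl
      exact Set.disjoint_left.1 hdisj ha1 hb1
    refine ⟨hne, ?_⟩
    have h3 := hUV a' ha2 b' hb2 hne
    rcases h1.2 a' b' with h4 | h4
    · rw [h4] at h3
      exact absurd h3 (Set.disjoint_left.1 hdisj ha1)
    · exact h4

/-- **Q1.** Every locally compact Hausdorff king space that admits at least one continuous weak
selection is compact. -/
theorem result (X : Type u) [TopologicalSpace X] [T2Space X] [LocallyCompactSpace X]
    (hking : IsKingSpace X)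
    (hsel : ∃ φ : X → X → X, IsWeakSelection φ ∧ IsContinuousSelection φ) : CompactSpace X := by
  classical
  by_contra hX
  obtain ⟨φ, h1, h2⟩ := hsel
  obtain ⟨S, hS⟩ := (toSel φ h1 h2).exists_kingless hX
  let ψ : X → X → X := fun a b => if S.R a b then b else a
  have hψ1 : ∀ a b, S.R a b → ψ a b = b := fun a b h => if_pos h
  have hψ2 : ∀ a b, ¬ S.R a b → ψ a b = a := fun a b h => if_neg h
  have hw : IsWeakSelection ψ := by
    constructor
    · intro a b
      by_cases hab : a = b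
      · subst hab; rfl
      · rcases S.total a b hab with h | h
        · rw [hψ1 a b h, hψ2 b a (S.asymm _ _ h)]
        · rw [hψ1 b a h, hψ2 a b (S.asymm _ _ h)]
    · intro a b
      by_cases h : S.R a b
      · exact Or.inr (hψ1 a b h)
      · exact Or.inl (hψ2 a b h)
  have hc : IsContinuousSelection ψ := by
    intro a b hab W hW hab'
    rcases S.total a b hab with h | h
    · rw [hψ1 a b h] at hab'
      obtain ⟨U, V, hU, hV, haU, hbV, hUV⟩ := isOpen_prod_iff.1 S.isOpen a b h
      refine ⟨U, V ∩ W, hU, hV.inter hW, haU, ⟨hbV, hab'⟩, ?_⟩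
      intro a' ha' b' hb' _
      have h3 : S.R a' b' := hUV (a := (a', b')) ⟨ha', hb'.1⟩
      rw [hψ1 a' b' h3]
      exact hb'.2
    · rw [hψ2 a b (S.asymm _ _ h)] at hab'
      obtain ⟨V, U, hV, hU, hbV, haU, hVU⟩ := isOpen_prod_iff.1 S.isOpen b a h
      refine ⟨U ∩ W, V, hU.inter hW, hV, ⟨haU, hab'⟩, hbV, ?_⟩
      intro a' ha' b' hb' _
      have h3 : S.R b' a' := hVU (a := (b', a')) ⟨hb', ha'.1⟩
      rw [hψ2 a' b' (S.asymm _ _ h3)]
      exact ha'.2
  obtain ⟨z, hz⟩ := hking ψ hw hc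
  apply hS z
  have harrow : ∀ a b, Arrow ψ a b → a = b ∨ S.R a b := by
    rintro a b (h | ⟨h, h'⟩)
    · exact Or.inl h
    · right
      by_contra hcon
      rw [hψ2 a b hcon] at h'
      exact h h'
  intro x
  obtain ⟨y, hzy, hyx⟩ := hz x
  rcases harrow z y hzy with rfl | h3
  · rcases harrow z x hyx with rfl | h4
    · exact Or.inl rfl
    · exact Or.inr (Or.inl h4)
  · rcases harrow y x hyx with rfl | h4
    · exact Or.inr (Or.inl h3)
    · exact Or.inr (Or.inr ⟨y, h3, h4⟩)

end Pool.Agent.Results.MP_abcfaf_gt.KingCompact
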